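import Mathlib
import Pool.Agent.H13.Rams

set_option autoImplicit false

namespace Pool.Agent.Results.MP_3a7344_al.LocalRank
open Finset
open scoped Pointwise

theorem prod_mem {Q : Type} [Group Q] [DecidableEq Q] (D : Finset Q) (h1 : (1 : Q) ∈ D) (n : ℕ)
    (l : List Q) (hl : l.length ≤ n) (hD : ∀ x ∈ l, x ∈ D) : l.prod ∈ D ^ n := by
  have : l.prod ∈ D ^ l.length := by
    clear hl
    induction l with
    | nil => simp
    | cons x l ih =>
      rw [List.prod_cons, List.length_cons, pow_succ']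
      exact mul_mem_mul (hD x (by simp)) (ih fun y hy => hD y (by simp [hy]))
  exact pow_subset_pow_right h1 hl this

theorem step {Q : Type} [Group Q] [Infinite Q] (Y : ℕ → Finset Q) (s : ℕ)
    (hY : ∀ i, (Y i).card ≤ s) (F : Finset Q) (n : ℕ) :
    ∃ (g : Q) (a : ℕ → ℕ), StrictMono a ∧ ∀ l : List Q, l.length ≤ n →
      (∀ x ∈ l, (x ∈ F ∨ ∃ i, x ∈ Y (a i)) ∨ (x⁻¹ ∈ F ∨ ∃ i, x⁻¹ ∈ Y (a i))) → l.prod ≠ g := by
  classical
  let E : Finset ℕ → Finset Q := fun B => F ∪ B.biUnion Y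
  let D : Finset ℕ → Finset Q := fun B => insert 1 (E B ∪ (E B)⁻¹)
  let N := (2 * (F.card + n * s) + 1) ^ n
  have hW : ∀ B : Finset ℕ, B.card = n → (D B ^ n).card ≤ N := fun B hB => by
    have h1 : (E B).card ≤ F.card + n * s := by
      refine (card_union_le _ _).trans (Nat.add_le_add_left ?_ _)
      exact (card_biUnion_le_card_mul B Y s fun i _ => hY i).trans (by rw [hB])
    have h2 : (D B).card ≤ 2 * (F.card + n * s) + 1 := by
      refine (card_insert_le _ _).trans (Nat.add_le_add_right ?_ _)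
      refine (card_union_le _ _).trans ?_
      rw [card_inv]; omega
    exact card_pow_le.trans (Nat.pow_le_pow_left h2 n)
  obtain ⟨Z, hZ⟩ := Infinite.exists_subset_card_eq Q (N + 1)
  obtain ⟨a, ha, hh⟩ := Pool.Agent.H13.Rams.ramsey_inf (C := Z → Prop)
    (fun B z => (z : Q) ∈ D B ^ n) n
  have hc : ∀ S : Finset ℕ, S.card = n → (S.image a).card = n := fun S hS => by
    rw [card_image_of_injective _ ha.injective, hS]
  obtain ⟨g, hg, hg'⟩ : ∃ g ∈ Z, g ∉ D ((range n).image a) ^ n := by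
    by_contra hcon
    push Not at hcon
    have := card_le_card (show Z ⊆ _ from hcon)
    have := hW _ (hc _ (card_range n))
    omega
  refine ⟨g, a, ha, fun l hl hx e => ?_⟩
  have hS : ∃ S : Finset ℕ, S.card ≤ l.length ∧ ∀ x ∈ l, x ∈ D (S.image a) := by
    clear e hl
    have mono : ∀ {S S' : Finset ℕ}, S ⊆ S' → D (S.image a) ⊆ D (S'.image a) := fun h => by
      have : E _ ⊆ E _ := union_subset_union_right
        (biUnion_subset_biUnion_of_subset_left Y (image_subset_image (f := a) h))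
      exact insert_subset_insert _ (union_subset_union this (inv_subset_inv this))
    induction l with
    | nil => exact ⟨∅, by simp, by simp⟩
    | cons x l ih =>
      obtain ⟨S, h1, h2⟩ := ih fun y hy => hx y (by simp [hy])
      have : ∃ i, x ∈ D (({i} : Finset ℕ).image a) := by
        rcases hx x (by simp) with (h | ⟨i, h⟩) | (h | ⟨i, h⟩)
        · exact ⟨0, by simp [D, E, h]⟩
        · exact ⟨i, by simp [D, E, h]⟩
        · exact ⟨0, by simp [D, E, h]⟩
        · exact ⟨i, by simp [D, E, h]⟩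
      obtain ⟨i, hi⟩ := this
      refine ⟨insert i S, (card_insert_le _ _).trans (by simp; omega), fun y hy => ?_⟩
      rcases List.mem_cons.1 hy with rfl | hy
      · exact mono (by simp) hi
      · exact mono (subset_insert _ _) (h2 y hy)
  obtain ⟨S, h1, h2⟩ := hS
  obtain ⟨S', h3, h4⟩ := Infinite.exists_superset_card_eq S n (h1.trans hl)
  have h5 : g ∈ D (S'.image a) ^ n := by
    rw [← e]
    refine prod_mem _ (mem_insert_self _ _) n l hl fun x hx => ?_
    have : E _ ⊆ E _ := union_subset_union_right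
      (biUnion_subset_biUnion_of_subset_left Y (image_subset_image (f := a) h3))
    exact insert_subset_insert _ (union_subset_union this (inv_subset_inv this)) (h2 x hx)
  have := congrFun (hh S' (range n) (by rw [h4, card_range]) h4.le) ⟨g, hg⟩
  exact hg' (this ▸ h5)

theorem main {Q : Type} [Group Q] [Infinite Q] (Y : ℕ → Finset Q) (s : ℕ)
    (hY : ∀ i, (Y i).card ≤ s) :
    ∃ c : ℕ → ℕ, StrictMono c ∧ ∀ n : ℕ, ∃ g : Q, ∀ l : List Q, l.length ≤ n →
      (∀ x ∈ l, (∃ k, x ∈ Y (c k)) ∨ ∃ k, x⁻¹ ∈ Y (c k)) → l.prod ≠ g := by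
  classical
  choose g a ha hg using fun (b : ℕ → ℕ) (F : Finset Q) (n : ℕ) =>
    step (fun i => Y (b i)) s (fun i => hY _) F n
  let P : ℕ → (ℕ → ℕ) × Finset Q := fun k => Nat.rec (id, ∅)
    (fun k p => (fun i => p.1 (a p.1 p.2 k (i + 1)), p.2 ∪ Y (p.1 (a p.1 p.2 k 0)))) k
  let c : ℕ → ℕ := fun k => (P k).1 (a (P k).1 (P k).2 k 0)
  have hP : ∀ k, P (k + 1) = (fun i => (P k).1 (a (P k).1 (P k).2 k (i + 1)), (P k).2 ∪ Y (c k)) :=
    fun k => rfl
  have hb : ∀ k, StrictMono (P k).1 := fun k => by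
    induction k with
    | zero => exact strictMono_id
    | succ k ih =>
      rw [hP]
      exact fun i j h => ih (ha _ _ _ (Nat.succ_lt_succ h))
  have hc : StrictMono c := strictMono_nat_of_lt_succ fun k => by
    change c k < (P (k + 1)).1 _
    rw [hP]
    exact hb k (ha _ _ _ (Nat.succ_pos _))
  have h1 : ∀ j k, j < k → Y (c j) ⊆ (P k).2 := fun j k h => by
    induction k with
    | zero => omega
    | succ k ih =>
      rw [hP]
      rcases Nat.lt_succ_iff_lt_or_eq.1 h with h | rfl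
      · exact (ih h).trans subset_union_left
      · exact subset_union_right
  have h2 : ∀ k j, k < j → ∀ i, ∃ m, (P j).1 i = (P k).1 (a (P k).1 (P k).2 k m) := fun k j h => by
    induction j with
    | zero => omega
    | succ j ih =>
      intro i
      rw [hP]
      rcases Nat.lt_succ_iff_lt_or_eq.1 h with h | rfl
      · exact ih h _
      · exact ⟨_, rfl⟩
  have h3 : ∀ n j (x : Q), x ∈ Y (c j) →
      x ∈ (P n).2 ∨ ∃ i, x ∈ Y ((P n).1 (a (P n).1 (P n).2 n i)) := fun n j x hx => by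
    rcases lt_trichotomy j n with h | rfl | h
    · exact Or.inl (h1 _ _ h hx)
    · exact Or.inr ⟨0, hx⟩
    · obtain ⟨m, hm⟩ := h2 n j h (a (P j).1 (P j).2 j 0)
      exact Or.inr ⟨m, hm ▸ hx⟩
  refine ⟨c, hc, fun n => ⟨_, fun l hl hx => hg (P n).1 (P n).2 n l hl fun x hx' => ?_⟩⟩
  rcases hx x hx' with ⟨k, h⟩ | ⟨k, h⟩
  · exact Or.inl (h3 n k x h)
  · exact Or.inr (h3 n k _ h)

theorem result (G Q : Type) [Group G] [Group Q] [Countable Q] [Infinite Q]
    (φ : G →* Q) (hφ : Function.Surjective φ) (r : ℕ)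
    (hr : ∀ F : Finset Q, ∃ T : Finset Q, T.card ≤ r ∧
      (F : Set Q) ⊆ Subgroup.closure (T : Set Q)) :
    ∃ X : Set G, Subgroup.closure X = ⊤ ∧ X.Infinite ∧
      ¬ ∃ n : ℕ, ∀ g : G, ∃ l : List G,
        l.length ≤ n ∧ (∀ x ∈ l, x ∈ X ∨ x⁻¹ ∈ X) ∧ l.prod = g := by
  classical
  obtain ⟨e⟩ : Nonempty (ℕ ≃ Q) := nonempty_equiv_of_countable
  choose T hT hT' using fun n : ℕ => hr ((range (n + 1)).image e)
  let Y : ℕ → Finset Q := fun n => insert 1 (insert (e n) (T n))
  obtain ⟨c, hc, hs⟩ := main Y (r + 2) fun i =>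
    (card_insert_le _ _).trans (Nat.succ_le_succ ((card_insert_le _ _).trans
      (Nat.succ_le_succ (hT i))))
  let X : Set Q := {x | ∃ k, x ∈ Y (c k)}
  have hX : Subgroup.closure X = ⊤ := by
    rw [eq_top_iff]
    intro q _
    obtain ⟨m, rfl⟩ := e.surjective q
    have h1 : e m ∈ Subgroup.closure (T (c m) : Set Q) := hT' (c m) (by
      simp only [coe_image, coe_range]
      exact ⟨m, Nat.lt_succ_of_le (hc.id_le m), rfl⟩)
    refine Subgroup.closure_mono (fun x hx => ?_) h1
    exact ⟨m, by simp [Y, mem_coe.1 hx]⟩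
  refine ⟨φ ⁻¹' X, ?_, ?_, ?_⟩
  · rw [eq_top_iff]
    intro g _
    have h1 : φ g ∈ (Subgroup.closure (φ ⁻¹' X)).map φ := by
      rw [MonoidHom.map_closure, Set.image_preimage_eq _ hφ, hX]; trivial
    obtain ⟨h, h2, h3⟩ := h1
    have h4 : h⁻¹ * g ∈ Subgroup.closure (φ ⁻¹' X) :=
      Subgroup.subset_closure ⟨0, by simp [Y, h3]⟩
    simpa using Subgroup.mul_mem _ h2 h4
  · refine Set.Infinite.preimage ?_ (by rw [hφ.range_eq]; exact Set.subset_univ _)
    exact Set.infinite_of_injective_forall_mem (f := fun k => e (c k))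
      (e.injective.comp hc.injective) fun k => ⟨k, by simp [Y]⟩
  · rintro ⟨n, hn⟩
    obtain ⟨q, hq⟩ := hs n
    obtain ⟨g, rfl⟩ := hφ q
    obtain ⟨l, h1, h2, h3⟩ := hn g
    refine hq (l.map φ) (by simpa using h1) (fun x hx => ?_) (by rw [← map_list_prod, h3])
    obtain ⟨y, hy, rfl⟩ := List.mem_map.1 hx
    rcases h2 y hy with h | h
    · exact Or.inl h
    · exact Or.inr (by rw [← map_inv]; exact h)

end Pool.Agent.Results.MP_3a7344_al.LocalRank
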